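import Pool.Agent.Lib.MP_c0708e_al.XMain

/-!
The exact form of the Tits alternative for pro-`p` groups of matrices, `p` odd, with no
finiteness hypothesis. Let `G` be a pro-`p` group that is a closed subgroup of `GL_n(R)`, `R` a
commutative profinite ring. Then `Γ_p ∉ var(G)` if and only if some term of the derived series
of `G` has finite exponent.
The definitions are in `Pool/Agent/Lib/MP_c0708e_al/TDefs.lean`.
-/

open Pool.Agent.Lib.MP_c0708e_al.Tits

namespace Pool.Agent.Results.MP_c0708e_al.TitsExact

theorem result (p : ℕ) [Fact p.Prime] (hp : p ≠ 2) (n : ℕ) (G : ProfiniteGrp.{0})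
    (hG : IsProP p G) (R : Type) [CommRing R] [TopologicalSpace R] [IsTopologicalRing R]
    [CompactSpace R] [T2Space R] [TotallyDisconnectedSpace R] (f : G →* GL (Fin n) R)
    (hf : Topology.IsClosedEmbedding (fun g : G => (f g : Matrix (Fin n) (Fin n) R))) :
    ¬ InVar p G (Gamma p) ↔ ∃ d e : ℕ, ∀ g ∈ derivedSeries G d, g ^ p ^ e = 1 :=
  ⟨fin_exp hp hG (ρ := (Units.coeHom _).comp f) hf.continuous hf.injective,
    fun ⟨_, _, h⟩ => not_inVar hp hG h⟩

end Pool.Agent.Results.MP_c0708e_al.TitsExact
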