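import Mathlib
import Pool.Agent.Lib.MP_c0708e_al.Algebra

/-!
The dichotomy of Q1 fails: for every prime `p` and every `n ≥ 3` there is a non-soluble pro-`p`
group of `n × n` matrices over a commutative profinite ring whose variety omits `Γ_p`.
The example is the Frobenius kernel of `SL(n, R)`, `R` a product of finite rings of
characteristic `p`; it has finite exponent.
-/

set_option linter.style.haveILetI false

open scoped PowerSeries.WithPiTopology MatrixGroups PowerSeries
open Pool.Agent.Lib.MP_c0708e_al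

namespace Pool.Agent.Results.MP_c0708e_al.TitsFails

/-- A profinite group is pro-`p` if all its quotients by open normal subgroups are `p`-groups. -/
def IsProP (p : ℕ) (G : ProfiniteGrp.{0}) : Prop :=
  ∀ N : OpenNormalSubgroup G, IsPGroup p (G ⧸ N.toSubgroup)

/-- `G` is topologically isomorphic to a closed subgroup of `GL_n(R)`, with the topology induced
from `R^(n²)`, for some commutative profinite (compact, Hausdorff, totally disconnected)
ring `R` with `1`. -/
def IsMatrixGroup (n : ℕ) (G : ProfiniteGrp.{0}) : Prop :=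
  ∃ (R : Type) (_ : CommRing R) (_ : TopologicalSpace R) (_ : IsTopologicalRing R)
    (_ : CompactSpace R) (_ : T2Space R) (_ : TotallyDisconnectedSpace R)
    (f : G →* GL (Fin n) R),
    Topology.IsClosedEmbedding (fun g : G => (f g : Matrix (Fin n) (Fin n) R))

/-- A variety of pro-`p` groups: a class of pro-`p` groups closed under closed subgroups,
quotients by closed normal subgroups (both up to topological isomorphism) and Cartesian
products. -/
structure IsVariety (p : ℕ) (V : ProfiniteGrp.{0} → Prop) : Prop where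
  proP : ∀ G, V G → IsProP p G
  sub : ∀ G H : ProfiniteGrp.{0}, V G → ∀ f : H →ₜ* G, Function.Injective f → V H
  quot : ∀ G H : ProfiniteGrp.{0}, V G → ∀ f : G →ₜ* H, Function.Surjective f → V H
  prod : ∀ (ι : Type) (G : ι → ProfiniteGrp.{0}), (∀ i, V (G i)) → V (ProfiniteGrp.pi G)

/-- `H ∈ var(G)`: `H` lies in every variety of pro-`p` groups containing `G`. -/
def InVar (p : ℕ) (G H : ProfiniteGrp.{0}) : Prop :=
  ∀ V : ProfiniteGrp.{0} → Prop, IsVariety p V → V G → V H

/-- The matrix `(1 t; 0 1)` in `SL_2(F_p[[t]])`. -/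
noncomputable def genU (p : ℕ) : SL(2, (ZMod p)⟦X⟧) :=
  ⟨!![1, PowerSeries.X; 0, 1], by simp [Matrix.det_fin_two]⟩

/-- The matrix `(1 0; t 1)` in `SL_2(F_p[[t]])`. -/
noncomputable def genL (p : ℕ) : SL(2, (ZMod p)⟦X⟧) :=
  ⟨!![1, 0; PowerSeries.X, 1], by simp [Matrix.det_fin_two]⟩

/-- The closure in `SL_2(F_p[[t]])` of the subgroup generated by the two matrices. The power
series ring carries the topology of coefficientwise convergence with `F_p` discrete, which is
the `t`-adic topology. -/
noncomputable def gammaSub (p : ℕ) : Subgroup SL(2, (ZMod p)⟦X⟧) :=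
  (Subgroup.closure {genU p, genL p}).topologicalClosure

theorem compactSpace_gammaSub (p : ℕ) [Fact p.Prime] : CompactSpace (gammaSub p) := by
  haveI : CompactSpace (ZMod p)⟦X⟧ := inferInstanceAs (CompactSpace ((Unit →₀ ℕ) → ZMod p))
  haveI : CompactSpace (Matrix (Fin 2) (Fin 2) (ZMod p)⟦X⟧) :=
    inferInstanceAs (CompactSpace (Fin 2 → Fin 2 → (ZMod p)⟦X⟧))
  haveI : CompactSpace SL(2, (ZMod p)⟦X⟧) :=
    Matrix.SpecialLinearGroup.isClosedEmbedding_val.compactSpace
  exact isCompact_iff_compactSpace.mp (Subgroup.isClosed_topologicalClosure _).isCompact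

theorem totallyDisconnectedSpace_gammaSub (p : ℕ) : TotallyDisconnectedSpace (gammaSub p) := by
  haveI : TotallyDisconnectedSpace (ZMod p)⟦X⟧ :=
    inferInstanceAs (TotallyDisconnectedSpace ((Unit →₀ ℕ) → ZMod p))
  haveI : TotallyDisconnectedSpace (Matrix (Fin 2) (Fin 2) (ZMod p)⟦X⟧) :=
    inferInstanceAs (TotallyDisconnectedSpace (Fin 2 → Fin 2 → (ZMod p)⟦X⟧))
  haveI : TotallyDisconnectedSpace SL(2, (ZMod p)⟦X⟧) :=
    inferInstanceAs (TotallyDisconnectedSpace (Subtype _))
  exact inferInstanceAs (TotallyDisconnectedSpace (Subtype _))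

/-- The group `Γ_p`, as a profinite group. -/
noncomputable def Gamma (p : ℕ) [Fact p.Prime] : ProfiniteGrp.{0} :=
  haveI := compactSpace_gammaSub p
  haveI := totallyDisconnectedSpace_gammaSub p
  ProfiniteGrp.of (gammaSub p)

/-- Profinite groups of exponent dividing `p ^ e` form a variety of pro-`p` groups. -/
theorem isVariety_exponent (p e : ℕ) :
    IsVariety p (fun G : ProfiniteGrp.{0} => ∀ g : G, g ^ p ^ e = 1) where
  proP G hG N q := by
    obtain ⟨g, rfl⟩ := QuotientGroup.mk_surjective q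
    exact ⟨e, by rw [← QuotientGroup.mk_pow, hG, QuotientGroup.mk_one]⟩
  sub G H hG f hf h := hf (by rw [map_pow, hG, map_one])
  quot G H hG f hf h := by
    obtain ⟨g, rfl⟩ := hf h
    rw [← map_pow, hG, map_one]
  prod ι G hG g := funext fun i => hG i (g i)

theorem gamma_not_exponent (p : ℕ) [Fact p.Prime] (e : ℕ) :
    ¬ ∀ g : Gamma p, g ^ p ^ e = 1 := by
  intro h
  have hmem : genU p * genL p ∈ gammaSub p :=
    Subgroup.le_topologicalClosure _ (Subgroup.mul_mem _
      (Subgroup.subset_closure (by simp)) (Subgroup.subset_closure (by simp)))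
  have h1 : (genU p * genL p) ^ p ^ e = 1 :=
    congrArg Subtype.val (h (⟨_, hmem⟩ : gammaSub p))
  set A : Matrix (Fin 2) (Fin 2) (ZMod p)⟦X⟧ :=
    !![PowerSeries.X * PowerSeries.X, PowerSeries.X; PowerSeries.X, 0] with hA
  have h2 : ((genU p * genL p : SL(2, (ZMod p)⟦X⟧)) : Matrix (Fin 2) (Fin 2) (ZMod p)⟦X⟧)
      = 1 + A := by
    change !![1, PowerSeries.X; 0, 1] * !![1, 0; PowerSeries.X, 1] = 1 + A
    rw [hA]
    ext1 i j
    fin_cases i <;> fin_cases j <;> simp
  have h3 : (1 + A) ^ p ^ e = 1 := by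
    rw [← h2]
    exact (Matrix.SpecialLinearGroup.coe_pow _ _).symm.trans (congrArg Subtype.val h1)
  haveI : CharP (ZMod p)⟦X⟧ p :=
    charP_of_injective_algebraMap (R := ZMod p) (PowerSeries.C_injective) p
  rw [one_add_pow_pow p, add_eq_left] at h3
  have h4 := congrArg Matrix.det h3
  rw [Matrix.det_pow, Matrix.det_zero] at h4
  have h5 := pow_eq_zero_iff (pow_ne_zero e (Fact.out : p.Prime).ne_zero) |>.mp h4
  rw [hA, Matrix.det_fin_two] at h5
  simp [PowerSeries.X_ne_zero] at h5

/-- Sanity check, not used below: `Γ_p` is a pro-`p` group. -/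
theorem isProP_gamma (p : ℕ) [Fact p.Prime] : IsProP p (Gamma p) := by
  intro N q
  obtain ⟨g, rfl⟩ := QuotientGroup.mk_surjective q
  haveI : CharP (ZMod p)⟦X⟧ p :=
    charP_of_injective_algebraMap (R := ZMod p) (PowerSeries.C_injective) p
  have hle : gammaSub p ≤ (Matrix.SpecialLinearGroup.map (n := Fin 2)
      (PowerSeries.constantCoeff (R := ZMod p))).ker := by
    refine Subgroup.topologicalClosure_minimal _ ?_ ?_
    · rw [Subgroup.closure_le]
      rintro u (rfl | rfl)
      · refine Subtype.ext ?_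
        change (!![1, PowerSeries.X; 0, 1] : Matrix (Fin 2) (Fin 2) (ZMod p)⟦X⟧).map _ = 1
        ext1 i j
        fin_cases i <;> fin_cases j <;> simp
      · refine Subtype.ext ?_
        change (!![1, 0; PowerSeries.X, 1] : Matrix (Fin 2) (Fin 2) (ZMod p)⟦X⟧).map _ = 1
        ext1 i j
        fin_cases i <;> fin_cases j <;> simp
    · exact isClosed_singleton.preimage
        (PowerSeries.WithPiTopology.continuous_constantCoeff (ZMod p)).specialLinearGroup_map
  obtain ⟨g, hg⟩ : gammaSub p := g
  have hg1 : (g : Matrix (Fin 2) (Fin 2) (ZMod p)⟦X⟧).map PowerSeries.constantCoeff = 1 :=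
    congrArg Subtype.val (hle hg)
  have hB : ∀ i j, ∃ b : (ZMod p)⟦X⟧,
      ((g : Matrix (Fin 2) (Fin 2) (ZMod p)⟦X⟧) - 1) i j = PowerSeries.X * b := by
    intro i j
    refine PowerSeries.X_dvd_iff.mpr ?_
    have := congrFun (congrFun hg1 i) j
    rw [Matrix.map_apply] at this
    rw [Matrix.sub_apply, map_sub, this]
    by_cases hij : i = j <;> simp [Matrix.one_apply, hij]
  choose B hB using hB
  have hg2 : (g : Matrix (Fin 2) (Fin 2) (ZMod p)⟦X⟧) =
      1 + (PowerSeries.X : (ZMod p)⟦X⟧) • Matrix.of B := by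
    rw [← sub_eq_iff_eq_add']
    ext1 i j
    rw [hB]
    rfl
  have hlim : Filter.Tendsto (fun e : ℕ => (⟨g, hg⟩ : gammaSub p) ^ p ^ e) Filter.atTop
      (nhds 1) := by
    refine Topology.IsInducing.subtypeVal.tendsto_nhds_iff.mpr
      (Matrix.SpecialLinearGroup.isClosedEmbedding_val.isInducing.tendsto_nhds_iff.mpr ?_)
    refine tendsto_pi_nhds.mpr fun i => tendsto_pi_nhds.mpr fun j => ?_
    rw [PowerSeries.WithPiTopology.tendsto_iff_coeff_tendsto]
    intro d
    refine tendsto_const_nhds.congr' ?_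
    filter_upwards [Filter.eventually_ge_atTop d] with e he
    have h1 : ((g ^ p ^ e : SL(2, (ZMod p)⟦X⟧)) : Matrix (Fin 2) (Fin 2) (ZMod p)⟦X⟧) =
        1 + (PowerSeries.X : (ZMod p)⟦X⟧) ^ p ^ e • Matrix.of B ^ p ^ e := by
      refine (Matrix.SpecialLinearGroup.coe_pow g _).trans ?_
      rw [hg2, one_add_pow_pow p, smul_pow]
    change _ = PowerSeries.coeff d
      (((g ^ p ^ e : SL(2, (ZMod p)⟦X⟧)) : Matrix (Fin 2) (Fin 2) (ZMod p)⟦X⟧) i j)
    have hlt : d < p ^ e := lt_of_le_of_lt he (Nat.lt_pow_self (Fact.out : p.Prime).one_lt)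
    rw [h1, Matrix.add_apply, map_add, Matrix.smul_apply, smul_eq_mul,
      PowerSeries.coeff_X_pow_mul', if_neg (by omega), add_zero]
    rfl
  obtain ⟨e, he⟩ := (hlim.eventually (N.toOpenSubgroup.mem_nhds_one)).exists
  exact ⟨e, (QuotientGroup.mk_pow N.toSubgroup _ _).symm.trans
    ((QuotientGroup.eq_one_iff _).mpr he)⟩

theorem result (p : ℕ) [Fact p.Prime] (n : ℕ) (hn : 3 ≤ n) :
    ∃ G : ProfiniteGrp.{0}, IsProP p G ∧ IsMatrixGroup n G ∧ ¬ Group.IsSolvable G ∧
      ¬ InVar p G (Gamma p) := by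
  haveI : NeZero n := ⟨by omega⟩
  choose R instR finR hp x hx hprod using exists_finite_ring p
  letI : ∀ k, TopologicalSpace (R k) := fun _ => ⊥
  haveI : ∀ k, DiscreteTopology (R k) := fun _ => ⟨rfl⟩
  haveI : ∀ k, IsTopologicalRing (R k) := fun _ => inferInstance
  haveI : Nontrivial (R 0) := nontrivial_of_ne _ _ (hprod 0)
  haveI : Nontrivial (∀ k, R k) := Pi.nontrivial_at 0
  haveI : CharP (∀ k, R k) p :=
    (CharP.charP_iff_prime_eq_zero Fact.out).mpr (funext fun k => hp k)
  haveI : CompactSpace (Matrix (Fin n) (Fin n) (∀ k, R k)) :=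
    inferInstanceAs (CompactSpace (Fin n → Fin n → ∀ k, R k))
  haveI : TotallyDisconnectedSpace (Matrix (Fin n) (Fin n) (∀ k, R k)) :=
    inferInstanceAs (TotallyDisconnectedSpace (Fin n → Fin n → ∀ k, R k))
  haveI : CompactSpace SL(n, ∀ k, R k) :=
    Matrix.SpecialLinearGroup.isClosedEmbedding_val.compactSpace
  haveI : TotallyDisconnectedSpace SL(n, ∀ k, R k) :=
    inferInstanceAs (TotallyDisconnectedSpace (Subtype _))
  have hfrob : Continuous (frobenius (∀ k, R k) p) := continuous_pow p
  have hclosed : IsClosed (frobKer (∀ k, R k) p n : Set SL(n, ∀ k, R k)) := by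
    have : (frobKer (∀ k, R k) p n : Set SL(n, ∀ k, R k)) =
        (Matrix.SpecialLinearGroup.map (n := Fin n) (frobenius (∀ k, R k) p)) ⁻¹' {1} := rfl
    rw [this]
    exact isClosed_singleton.preimage hfrob.specialLinearGroup_map
  haveI : CompactSpace (frobKer (∀ k, R k) p n) := isCompact_iff_compactSpace.mp hclosed.isCompact
  haveI : TotallyDisconnectedSpace (frobKer (∀ k, R k) p n) :=
    inferInstanceAs (TotallyDisconnectedSpace (Subtype _))
  have hexp : ∀ g : ProfiniteGrp.of (frobKer (∀ k, R k) p n), g ^ p ^ (n + 1) = 1 :=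
    fun g => Subtype.ext (frobKer_pow g.1 g.2)
  refine ⟨ProfiniteGrp.of (frobKer (∀ k, R k) p n), (isVariety_exponent p (n + 1)).proP _ hexp,
    ?_, ?_, ?_⟩
  · refine ⟨∀ k, R k, inferInstance, inferInstance, inferInstance, inferInstance, inferInstance,
      inferInstance, Matrix.SpecialLinearGroup.toGL.comp (frobKer (∀ k, R k) p n).subtype, ?_⟩
    exact Matrix.SpecialLinearGroup.isClosedEmbedding_val.comp hclosed.isClosedEmbedding_subtypeVal
  · refine not_isSolvable_frobKer hn fun m hm => hprod m ?_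
    have hmem : ∏ i : Fin m, (Pi.single m (x m i) : ∀ k, R k) ∈
        (RingHom.ker (frobenius (∀ k, R k) p)) ^ m := by
      have := Ideal.prod_mem_prod (s := (Finset.univ : Finset (Fin m)))
        (I := fun _ => RingHom.ker (frobenius (∀ k, R k) p))
        (x := fun i => (Pi.single m (x m i) : ∀ k, R k)) (fun i _ => by
          rw [RingHom.mem_ker, frobenius_def]
          refine pow_eq_zero_of_le (Fact.out : p.Prime).two_le ?_
          funext k
          by_cases hk : k = m
          · subst hk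
            simpa using hx k i
          · simp [hk])
      simpa using this
    rw [hm, Ideal.mem_bot] at hmem
    have := congrFun hmem m
    simpa [Finset.prod_apply] using this
  · intro h
    exact gamma_not_exponent p (n + 1) (h _ (isVariety_exponent p (n + 1)) hexp)

end Pool.Agent.Results.MP_c0708e_al.TitsFails
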