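import Pool.Agent.Lib.MP_c0708e_al.TWrap

/-!
The Tits alternative for pro-`p` groups of matrices of any size, `p` odd.
Let `G` be a pro-`p` group that is a closed subgroup of `GL_n(R)`, `R` a commutative profinite
ring. Either `Γ_p ∈ var(G)`, or every topologically finitely generated closed subgroup of `G` is
soluble and, when `R` is Noetherian, every subgroup of `G` is soluble. Taking `H = ⊤`: if `G` is
topologically finitely generated or `R` is Noetherian, then `G` is soluble or `Γ_p ∈ var(G)`.
The definitions are in `Pool/Agent/Lib/MP_c0708e_al/TDefs.lean`.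
-/

open Pool.Agent.Lib.MP_c0708e_al.Tits

namespace Pool.Agent.Results.MP_c0708e_al.TitsHolds

theorem result (p : ℕ) [Fact p.Prime] (hp : p ≠ 2) (n : ℕ) (G : ProfiniteGrp.{0})
    (hG : IsProP p G) (R : Type) [CommRing R] [TopologicalSpace R] [IsTopologicalRing R]
    [CompactSpace R] [T2Space R] [TotallyDisconnectedSpace R] (f : G →* GL (Fin n) R)
    (hf : Topology.IsClosedEmbedding (fun g : G => (f g : Matrix (Fin n) (Fin n) R))) :
    (∀ H : Subgroup G, (IsNoetherianRing R ∨
      ∃ S : Finset G, H = (Subgroup.closure (S : Set G)).topologicalClosure) →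
      Group.IsSolvable H) ∨ InVar p G (Gamma p) :=
  tits hp hG ((Units.coeHom _).comp f) hf.continuous hf.injective

end Pool.Agent.Results.MP_c0708e_al.TitsHolds
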